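import Pool.Agent.BED.Stmts

set_option autoImplicit false

namespace Pool.Agent.BED.H50

open Pool.Agent.BED

theorem jlb (hjta : JtaStmt) : JlbStmt := by
  intro x hx0 hx3
  have b0 : bj 0 = 1 := by
    unfold bj
    norm_num
  have b1 : bj 1 = -(1 / 4) := by
    unfold bj
    norm_num
  have b2 : bj 2 = 1 / 64 := by
    unfold bj
    norm_num
  have hx9 : x ^ 2 ≤ 9 := by nlinarith
  have h1 := hjta.2 x 1 (by norm_num; linarith)
  have h2 := hjta.2 x 2 (by norm_num; linarith)
  rw [Finset.sum_range_one] at h1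
  rw [Finset.sum_range_succ, Finset.sum_range_one] at h2
  rw [b1, b0, abs_le] at h1
  rw [b2, b1, b0, abs_le] at h2
  norm_num at h1 h2
  constructor
  · linarith [h1.1]
  · nlinarith [h2.2]

end Pool.Agent.BED.H50
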